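import Pool.Agent.Y254.HK.Stm

/-! # Sizes of the integers of the configuration, and the simple costs (HK-FA) -/

set_option autoImplicit false

open Finset
open scoped Classical

namespace Pool.Agent.Y721.HK
open Pool.Agent.W904.AK Pool.Agent.W46.HD Pool.Agent.W46.HM Pool.Agent.Y244.HM
  Pool.Agent.W597.HD Pool.Agent.Y254HK

/-- shifting an integer by a height -/
theorem log_shift {n : ℕ} (j : Fin n) (k : ℤ) :
    Real.log (1 + |((((j : ℕ) : ℤ) + k : ℤ) : ℝ)| / n) ≤ 1 + Real.log (1 + |(k : ℝ)| / n) := by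
  have hn : (0 : ℝ) < n := by exact_mod_cast (lt_of_le_of_lt (Nat.zero_le _) j.2)
  have hj : ((j : ℕ) : ℝ) ≤ n := by exact_mod_cast j.2.le
  have hj0 : (0 : ℝ) ≤ ((j : ℕ) : ℝ) := Nat.cast_nonneg _
  have h1 : |((((j : ℕ) : ℤ) + k : ℤ) : ℝ)| ≤ n + |(k : ℝ)| := by
    push_cast
    refine (abs_add_le _ _).trans ?_
    rw [abs_of_nonneg hj0]
    linarith
  have h2 : 1 + |((((j : ℕ) : ℤ) + k : ℤ) : ℝ)| / n ≤ 2 * (1 + |(k : ℝ)| / n) := by
    have h3 : |((((j : ℕ) : ℤ) + k : ℤ) : ℝ)| / n ≤ (n + |(k : ℝ)|) / n :=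
      div_le_div_of_nonneg_right h1 hn.le
    have h4 : ((n : ℝ) + |(k : ℝ)|) / n = 1 + |(k : ℝ)| / n := by
      field_simp
    have h5 : 0 ≤ |(k : ℝ)| / n := by positivity
    linarith
  have h5 : 0 ≤ |(k : ℝ)| / n := by positivity
  calc Real.log (1 + |((((j : ℕ) : ℤ) + k : ℤ) : ℝ)| / n)
      ≤ Real.log (2 * (1 + |(k : ℝ)| / n)) := Real.log_le_log (by positivity) h2
    _ = Real.log 2 + Real.log (1 + |(k : ℝ)| / n) := by
        rw [Real.log_mul (by norm_num) (by positivity)]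
    _ ≤ 1 + Real.log (1 + |(k : ℝ)| / n) := by
        have := Real.log_two_lt_d9
        linarith

theorem t_fa : S_FA := by
  intro d ε hε
  refine ⟨20 * ((d : ℝ) + 1), by positivity, ?_⟩
  intro n Ω _ A D hfam p S hp Θ _ q l1 l2 l3 s0 s1 t t' τ v hc
  have hq := hc.law
  have hCOST := Pool.Agent.W85.HD.COST
  have hINT := Pool.Agent.W85.HD.INT
  have hG1 := Pool.Agent.W975.HD.G1
  have hG3 := Pool.Agent.W975.HD.G3
  have hG5 := Pool.Agent.W505.HD.G5
  have hG6 := Pool.Agent.W505.HD.G6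
  have hG9 := Pool.Agent.W505.HD.G9
  obtain ⟨Y, hY⟩ : ∃ Y : Θ → ℤ, Y = fun z => yy (s0 z) (s1 z) (t z) (t' z) := ⟨_, rfl⟩
  obtain ⟨Z, hZ⟩ : ∃ Z : Θ → Fin d → ℤ, Z = fun z => cz A D (s1 z) (Y z) (l1 z) (l3 z) := ⟨_, rfl⟩
  obtain ⟨M, hM⟩ : ∃ M : Θ → ℤ, M = fun z => mm (s1 z) (v z) (τ z) (Y z) := ⟨_, rfl⟩
  obtain ⟨G, hG⟩ : ∃ G : Θ → Fin d → ℤ, G = fun z => cz A D (v z) (M z) (l2 z) (l3 z) := ⟨_, rfl⟩
  have hYY : YY s0 s1 t t' = Y := by rw [hY]; rfl
  have hMM : MM s0 s1 t t' τ v = M := by rw [hM, hY]; rfl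
  have hXX : XX A D l1 l3 s0 s1 t t' = fun z => (((s1 z : ℕ) : ℤ) + Y z, Z z) := by
    rw [hZ, hY]; rfl
  have hWW : WW A D l2 l3 s0 s1 t t' τ v = fun z => (((v z : ℕ) : ℤ) + M z, G z) := by
    rw [hG, hM, hY]; rfl
  -- abbreviations for the expectations
  obtain ⟨e1, he1⟩ : ∃ e1, e1 = EE q (fun z => psi n (t z) (s0 z)) := ⟨_, rfl⟩
  obtain ⟨e2, he2⟩ : ∃ e2, e2 = EE q (fun z => psi n (t z) (s1 z)) := ⟨_, rfl⟩
  obtain ⟨e3, he3⟩ : ∃ e3, e3 = EE q (fun z => psi n (t' z) (s0 z)) := ⟨_, rfl⟩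
  obtain ⟨e4, he4⟩ : ∃ e4, e4 = EE q (fun z => psi n (τ z) (s1 z)) := ⟨_, rfl⟩
  obtain ⟨e5, he5⟩ : ∃ e5, e5 = EE q (fun z => psi n (τ z) (v z)) := ⟨_, rfl⟩
  obtain ⟨e6, he6⟩ : ∃ e6, e6 = EE q (fun z => psi n (s0 z) (s1 z)) := ⟨_, rfl⟩
  have b1 : e1 ≤ S := (he1 ▸ hc.c2 : e1 ≤ sep p).trans hc.sep_le
  have b2 : e2 ≤ S := (he2 ▸ hc.c3 : e2 ≤ sep p).trans hc.sep_le
  have b3 : e3 ≤ S := (he3 ▸ hc.c4 : e3 ≤ sep p).trans hc.sep_le
  have b4 : e4 ≤ S := (he4 ▸ hc.c5 : e4 ≤ sep p).trans hc.sep_le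
  have b5 : e5 ≤ S := (he5 ▸ hc.c6 : e5 ≤ sep p).trans hc.sep_le
  have b6 : e6 ≤ S := (he6 ▸ hc.c1 : e6 ≤ sep p).trans hc.sep_le
  have hpn : ∀ (i j : Fin n), 0 ≤ psi n i j := fun i j => psi_nonneg i.2 j.2
  have n1 : 0 ≤ e1 := by
    rw [he1]; exact Finset.sum_nonneg fun z _ => mul_nonneg (hq.nonneg z) (hpn _ _)
  have hS : 0 ≤ S := n1.trans b1
  have hd : (0 : ℝ) ≤ d := Nat.cast_nonneg d
  have hlog : 0 ≤ ε * Real.log n :=
    mul_nonneg hε.le (Real.log_nonneg (by exact_mod_cast hfam.pos))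
  have hdS : 0 ≤ d * S := mul_nonneg hd hS
  -- the two forms of the error
  have hE1 : ∀ x : ℝ, x ≤ 20 + 20 * S →
      x ≤ ε * Real.log n + 20 * ((d : ℝ) + 1) * (1 + S) := by
    intro x hx
    nlinarith
  have hE2 : ∀ x : ℝ, x ≤ 12 + 5 * S →
      d * x ≤ ε * Real.log n + 20 * ((d : ℝ) + 1) * (1 + S) := by
    intro x hx
    have h1 := mul_le_mul_of_nonneg_left hx hd
    nlinarith
  have h9 := fun z => hG9 n (s0 z) (s1 z) (t z) (t' z) (v z) (τ z) (s0 z).2 (s1 z).2 (t z).2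
    (t' z).2 (v z).2 (τ z).2
  have h9Y : ∀ z, |Y z| ≤ (n : ℤ) ^ 2 + 1 := fun z => by rw [hY]; exact (h9 z).1
  have h9q : ∀ z, phi n (Y z) ≤ 3 + psi n (t' z) (s0 z) + psi n (t z) (s1 z) +
      psi n (t z) (s0 z) := by
    intro z
    rw [hY]; exact (h9 z).2.1
  have h9p : ∀ z, phi n (M z) ≤ 6 + psi n (t' z) (s0 z) + psi n (t z) (s1 z) + psi n (t z) (s0 z) +
      psi n (τ z) (v z) + psi n (τ z) (s1 z) := by
    intro z
    have h2 := ((h9 z).2.2.2 (Y z)).1
    have h3 := h9q z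
    rw [hM]
    dsimp only
    linarith
  -- sizes
  have hLY : EE q (fun z => Real.log (1 + |(Y z : ℝ)| / n)) ≤ 3 + e1 := by
    rw [he1, ← EE_const hq 3, ← EE_add]
    refine EE_mono hq fun z _ => ?_
    have := (h9 z).2.2.1
    rw [hY]
    exact this
  have hLM : EE q (fun z => Real.log (1 + |(M z : ℝ)| / n)) ≤ 6 + e1 + e4 := by
    have h3 : EE q (fun z => (6 + psi n (t z) (s0 z)) + psi n (τ z) (s1 z)) = 6 + e1 + e4 := by
      rw [EE_add (fun z => 6 + psi n (t z) (s0 z)) (fun z => psi n (τ z) (s1 z)),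
        EE_add (fun z => (6 : ℝ)) (fun z => psi n (t z) (s0 z)), EE_const hq, he1, he4]
    rw [← h3]
    refine EE_mono hq fun z _ => ?_
    have h4 := (h9 z).2.2.1
    have h5 := ((h9 z).2.2.2 (Y z)).2
    have h6 : Real.log (1 + |(Y z : ℝ)| / n) ≤ 3 + psi n (t z) (s0 z) := by
      rw [hY]; exact h4
    rw [hM]
    dsimp only
    linarith
  have hsh : ∀ (j : Θ → Fin n) (k : Θ → ℤ) (x : ℝ),
      EE q (fun z => Real.log (1 + |(k z : ℝ)| / n)) ≤ x →
      H q (fun z => ((j z : ℕ) : ℤ) + k z) ≤ Real.log n + (5 + 2 * x) := by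
    intro j k x hx
    have h := hINT Θ q (fun z => ((j z : ℕ) : ℤ) + k z) n hq hfam.pos
    have h2 : EE q (fun z => Real.log (1 + |((((j z : ℕ) : ℤ) + k z : ℤ) : ℝ)| / n)) ≤ 1 + x := by
      have h3 : EE q (fun z => 1 + Real.log (1 + |(k z : ℝ)| / n)) ≤ 1 + x := by
        rw [EE_add (fun z => (1 : ℝ)) (fun z => Real.log (1 + |(k z : ℝ)| / n)), EE_const hq]
        linarith
      exact (EE_mono hq fun z _ => log_shift (j z) (k z)).trans h3
    have h3 : ∑ z, q z * Real.log (1 + |((((j z : ℕ) : ℤ) + k z : ℤ) : ℝ)| / n) =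
      EE q (fun z => Real.log (1 + |((((j z : ℕ) : ℤ) + k z : ℤ) : ℝ)| / n)) := rfl
    rw [h3] at h
    linarith
  have hs : ∀ (k : Θ → ℤ) (x : ℝ), EE q (fun z => Real.log (1 + |(k z : ℝ)| / n)) ≤ x →
      H q k ≤ Real.log n + (3 + 2 * x) := by
    intro k x hx
    have h := hINT Θ q k n hq hfam.pos
    have h3 : ∑ z, q z * Real.log (1 + |(k z : ℝ)| / n) =
      EE q (fun z => Real.log (1 + |(k z : ℝ)| / n)) := rfl
    rw [h3] at h
    linarith
  refine ⟨?_, ?_, ?_, ?_, ?_, ?_, ?_, ?_, ?_⟩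
  · -- sz
    rw [hXX]
    have h1 := hsh s1 Y _ hLY
    have h2 := hE1 (5 + 2 * (3 + e1)) (by linarith)
    linarith
  · -- sg
    rw [hWW]
    have h1 := hsh v M _ hLM
    have h2 := hE1 (5 + 2 * (6 + e1 + e4)) (by linarith)
    linarith
  · -- sy
    rw [hYY]
    have h1 := hs Y _ hLY
    have h2 := hE1 (3 + 2 * (3 + e1)) (by linarith)
    linarith
  · -- sm
    rw [hMM]
    have h1 := hs M _ hLM
    have h2 := hE1 (3 + 2 * (6 + e1 + e4)) (by linarith)
    linarith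
  · -- g6
    rw [hYY]
    have h := cost hCOST hq (f := fun z => (s0 z, s1 z, t z, Y z)) (g := t')
      (k := fun z => ((s0 z, s1 z, t z, Y z), t' z))
      (fun z => 3 + psi n (t z) (s1 z) + psi n (t z) (s0 z)) (by
        intro x y _ _ h; exact h) (by
        intro x hx
        obtain ⟨T, hT1, hT2⟩ := hG6 n (s0 x) (s1 x) (t x) (s0 x).2 (s1 x).2 (t x).2 (Y x)
        refine ⟨T, ?_, hT2⟩
        intro y hy h1
        simp only [Prod.mk.injEq] at h1
        obtain ⟨h2, h3, h4, h5⟩ := h1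
        apply hT1
        rw [← h5, ← h2, ← h3, ← h4, hY])
    have h2 : EE q (fun z => 3 + psi n (t z) (s1 z) + psi n (t z) (s0 z)) = 3 + e2 + e1 := by
      rw [EE_add (fun z => 3 + psi n (t z) (s1 z)) (fun z => psi n (t z) (s0 z)),
        EE_add (fun z => (3 : ℝ)) (fun z => psi n (t z) (s1 z)), EE_const hq, he1, he2]
    rw [h2] at h
    have h3 := hE1 (3 + e2 + e1) (by linarith)
    linarith
  · -- g5
    rw [hYY, hMM]
    have h := cost hCOST hq (f := fun z => (s1 z, v z, τ z, M z)) (g := Y)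
      (k := fun z => ((s1 z, v z, τ z, M z), Y z))
      (fun z => 3 + 2 * psi n (τ z) (v z) + 2 * psi n (τ z) (s1 z)) (by
        intro x y _ _ h; exact h) (by
        intro x hx
        obtain ⟨T, hT1, hT2⟩ := hG5 n (s1 x) (v x) (τ x) (s1 x).2 (v x).2 (τ x).2 (M x)
        refine ⟨T, ?_, hT2⟩
        intro y hy h1
        simp only [Prod.mk.injEq] at h1
        obtain ⟨h2, h3, h4, h5⟩ := h1
        apply hT1 _ (h9Y y)
        rw [← h5, ← h2, ← h3, ← h4, hM])
    have h2 : EE q (fun z => 3 + 2 * psi n (τ z) (v z) + 2 * psi n (τ z) (s1 z)) =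
        3 + 2 * e5 + 2 * e4 := by
      rw [EE_add (fun z => 3 + 2 * psi n (τ z) (v z)) (fun z => 2 * psi n (τ z) (s1 z)),
        EE_add (fun z => (3 : ℝ)) (fun z => 2 * psi n (τ z) (v z)), EE_const hq, EE_mul, EE_mul,
        he4, he5]
    rw [h2] at h
    have h3 := hE1 (3 + 2 * e5 + 2 * e4) (by linarith)
    linarith
  · -- g3
    rw [hXX]
    have h := cost hCOST hq (f := fun z => (l1 z, s1 z, (((s1 z : ℕ) : ℤ) + Y z, Z z))) (g := l3)
      (k := fun z => ((l1 z, s1 z, (((s1 z : ℕ) : ℤ) + Y z, Z z)), l3 z))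
      (fun z => d * (3 + phi n (Y z))) (by
        intro x y _ _ h; exact h) (by
        intro x hx
        refine ⟨Finset.univ.filter fun ω => cz A D (s1 x) (Y x) (l1 x) ω = Z x, ?_, ?_⟩
        · intro y hy hfy
          simp only [Prod.mk.injEq] at hfy
          obtain ⟨h5, h2, h3, h4⟩ := hfy
          have h3' : Y y = Y x := by
            rw [h2] at h3
            exact add_left_cancel h3
          rw [Finset.mem_filter]
          refine ⟨Finset.mem_univ _, ?_⟩
          rw [← h4, ← h2, ← h3', ← h5]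
          simp only [hZ]
        · refine hG3 d n Ω D hfam (Y x) (fun i => ⌊A (l1 x) i + (s1 x : ℝ) * D (l1 x) i⌋) (Z x) _ ?_
          intro ω hω
          rw [Finset.mem_filter] at hω
          refine ⟨fun i => A (l1 x) i + (s1 x : ℝ) * D (l1 x) i, fun i => rfl, fun i => ?_⟩
          have := congrFun hω.2 i
          simpa only [cz] using this)
    have h2 : EE q (fun z => d * (3 + phi n (Y z))) ≤ d * (6 + e3 + e2 + e1) := by
      have h3 : EE q (fun z => d * (3 + phi n (Y z))) ≤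
          EE q (fun z => d * (((6 + psi n (t' z) (s0 z)) + psi n (t z) (s1 z)) +
            psi n (t z) (s0 z))) := by
        refine EE_mono hq fun z _ => ?_
        have h5 := h9q z
        apply mul_le_mul_of_nonneg_left _ hd
        linarith
      refine h3.trans (le_of_eq ?_)
      rw [EE_mul, EE_add (fun z => (6 + psi n (t' z) (s0 z)) + psi n (t z) (s1 z))
        (fun z => psi n (t z) (s0 z)), EE_add (fun z => (6 + psi n (t' z) (s0 z)))
        (fun z => psi n (t z) (s1 z)), EE_add (fun z => (6 : ℝ)) (fun z => psi n (t' z) (s0 z)),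
        EE_const hq, he1, he2, he3]
    have h3 := hE2 (6 + e3 + e2 + e1) (by linarith)
    linarith
  · -- c3
    rw [hWW]
    have h := cost hCOST hq
      (f := fun z => ((((v z : ℕ) : ℤ) + M z, G z), v z, cell A D (v z) (l2 z))) (g := l3)
      (k := fun z => (((((v z : ℕ) : ℤ) + M z, G z), v z, cell A D (v z) (l2 z)), l3 z))
      (fun z => d * (3 + phi n (M z))) (by
        intro x y _ _ h; exact h) (by
        intro x hx
        refine ⟨Finset.univ.filter fun ω => ∃ u : Fin d → ℝ,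
          (∀ i, ⌊u i⌋ = cell A D (v x) (l2 x) i) ∧ ∀ i, ⌊u i + (M x : ℝ) * D ω i⌋ = G x i, ?_, ?_⟩
        · intro y hy h1
          simp only [Prod.mk.injEq] at h1
          obtain ⟨⟨h2, h3⟩, h5, h4⟩ := h1
          have h2' : M y = M x := by
            rw [h5] at h2
            exact add_left_cancel h2
          rw [Finset.mem_filter]
          refine ⟨Finset.mem_univ _, fun i => A (l2 y) i + ((v y : ℕ) : ℝ) * D (l2 y) i,
            fun i => ?_, fun i => ?_⟩
          · rw [← h4]; rfl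
          · rw [← h3, ← h2', hG]; rfl
        · refine hG3 d n Ω D hfam (M x) (cell A D (v x) (l2 x)) (G x) _ ?_
          intro ω hω
          exact (Finset.mem_filter.mp hω).2)
    have hEl3 : EE q (fun z => d * (3 + phi n (M z))) ≤ d * (12 + e3 + e2 + e1 + e5 + e4) := by
      have h3 : EE q (fun z => d * (3 + phi n (M z))) ≤
          EE q (fun z => d * (((((12 + psi n (t' z) (s0 z)) + psi n (t z) (s1 z)) +
            psi n (t z) (s0 z)) + psi n (τ z) (v z)) + psi n (τ z) (s1 z))) := by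
        refine EE_mono hq fun z _ => ?_
        have h4 := h9p z
        apply mul_le_mul_of_nonneg_left _ hd
        linarith
      refine h3.trans (le_of_eq ?_)
      rw [EE_mul, EE_add (fun z => (((12 + psi n (t' z) (s0 z)) + psi n (t z) (s1 z)) +
          psi n (t z) (s0 z)) + psi n (τ z) (v z)) (fun z => psi n (τ z) (s1 z)),
        EE_add (fun z => ((12 + psi n (t' z) (s0 z)) + psi n (t z) (s1 z)) +
          psi n (t z) (s0 z)) (fun z => psi n (τ z) (v z)),
        EE_add (fun z => (12 + psi n (t' z) (s0 z)) + psi n (t z) (s1 z))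
          (fun z => psi n (t z) (s0 z)), EE_add (fun z => (12 + psi n (t' z) (s0 z)))
          (fun z => psi n (t z) (s1 z)), EE_add (fun z => (12 : ℝ)) (fun z => psi n (t' z) (s0 z)),
        EE_const hq, he1, he2, he3, he4, he5]
    have h3 := hE2 (12 + e3 + e2 + e1 + e5 + e4) (by linarith)
    linarith
  · -- c1
    have h := cost hCOST hq (f := fun z => (l2 z, l3 z, s0 z, s1 z)) (g := l1)
      (k := fun z => ((l2 z, l3 z, s0 z, s1 z), l1 z))
      (fun z => d * (3 + psi n (s0 z) (s1 z))) (by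
        intro x y _ _ h; exact h) (by
        intro x hx
        refine ⟨Finset.univ.filter fun ω => cell A D (s0 x) ω = cell A D (s0 x) (l3 x) ∧
          cell A D (s1 x) ω = cell A D (s1 x) (l2 x), ?_, ?_⟩
        · intro y hy h1
          simp only [Prod.mk.injEq] at h1
          obtain ⟨h2, h3, h4, h5⟩ := h1
          rw [Finset.mem_filter]
          refine ⟨Finset.mem_univ _, ?_, ?_⟩
          · rw [← h4, ← h3]; exact hc.i0 y hy
          · rw [← h5, ← h2]; exact hc.i1 y hy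
        · refine hG1 d n Ω A D hfam (s0 x) (s1 x) (s0 x).2 (s1 x).2
            (cell A D (s0 x) (l3 x)) (cell A D (s1 x) (l2 x)) _ ?_
          intro ω hω
          exact (Finset.mem_filter.mp hω).2)
    have h2 : EE q (fun z => d * (3 + psi n (s0 z) (s1 z))) = d * (3 + e6) := by
      rw [EE_mul, EE_add (fun z => (3 : ℝ)) (fun z => psi n (s0 z) (s1 z)), EE_const hq, he6]
    rw [h2] at h
    have h3 := hE2 (3 + e6) (by linarith)
    linarith

end Pool.Agent.Y721.HK
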